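import Mathlib

/-!
# The numbers
-/

set_option autoImplicit false

namespace Pool.Agent.Helper70.PQ

open Real

theorem term1 {k m a w : ℕ} (ha : (1 : ℝ) ≤ a) (h : (10 : ℝ) ^ 8 * (a * (a * (w + 1) * m)) ^ 2 ≤ k) :
    ((a + 1 : ℝ) * ((8 * a * (w + 1) : ℕ) * m)) ^ 2 / k ≤ 1 / 1000 := by
  have h0 : (0 : ℝ) ≤ k := Nat.cast_nonneg _
  refine div_le_of_le_mul₀ h0 (by norm_num) ?_
  have h1 : (0 : ℝ) ≤ a * (w + 1) * m := by positivity
  have h2 : (a + 1 : ℝ) * ((8 * a * (w + 1) : ℕ) * m) ≤ 16 * (a * (a * (w + 1) * m)) := by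
    push_cast
    nlinarith [mul_nonneg (by linarith : (0 : ℝ) ≤ a - 1) h1]
  have h3 : ((a + 1 : ℝ) * ((8 * a * (w + 1) : ℕ) * m)) ^ 2 ≤ (16 * (a * (a * (w + 1) * m))) ^ 2 :=
    pow_le_pow_left₀ (by positivity) h2 2
  have h4 : (0 : ℝ) ≤ (a * (a * (w + 1) * m)) ^ 2 := sq_nonneg _
  nlinarith

theorem le_prod {a w m : ℕ} (ha : (1 : ℝ) ≤ a) : (m : ℝ) ≤ a * (a * (w + 1) * m) := by
  have h0 : (0 : ℝ) ≤ m := Nat.cast_nonneg _
  have h4 : (1 : ℝ) ≤ a * (w + 1) := by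
    have : (0 : ℝ) ≤ w := Nat.cast_nonneg _
    nlinarith
  have h5 : (m : ℝ) ≤ a * (w + 1) * m := le_mul_of_one_le_left h0 h4
  exact h5.trans (le_mul_of_one_le_left (by positivity) ha)

theorem term2 {k m a w J : ℕ} (ha : (1 : ℝ) ≤ a) (hJ : (1 : ℝ) ≤ J) (hm : (10 : ℝ) ^ 8 * (J * 2 ^ w) ≤ m)
    (h : (10 : ℝ) ^ 8 * (a * (a * (w + 1) * m)) ^ 2 ≤ k) : 2 * 2 ^ (w + 1) / √(k : ℝ) ≤ 1 / 1000 := by
  have h0 : (0 : ℝ) < 2 ^ w := by positivity
  have h1 : (10 : ℝ) ^ 8 * 2 ^ w ≤ √k := by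
    apply Real.le_sqrt_of_sq_le
    have h2 : (10 : ℝ) ^ 8 * 2 ^ w ≤ m := by nlinarith
    have h3 : (10 : ℝ) ^ 8 * 2 ^ w ≤ a * (a * (w + 1) * m) := h2.trans (le_prod ha)
    have h4 := pow_le_pow_left₀ (by positivity) h3 2
    nlinarith [sq_nonneg ((a : ℝ) * (a * (w + 1) * m))]
  have h2 : (0 : ℝ) < 10 ^ 8 * 2 ^ w := by positivity
  rw [div_le_iff₀ (lt_of_lt_of_le h2 h1), pow_succ]
  nlinarith

theorem key {m w J : ℕ} {ρ : ℝ} (hρ : 0 < ρ) (hρ1 : ρ ≤ 1) (hwJ : w + 1 ≤ J)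
    (h : (10 : ℝ) ^ 8 * (J + log (10 ^ 8 / ρ)) / ρ ≤ m) :
    7200 * exp 1 * (w + 1) * (m : ℝ) ^ 2 * 16 ^ J ≤ (1 + ρ / 2) ^ m := by
  have hw : (1 : ℝ) ≤ w + 1 := by linarith [(Nat.cast_nonneg w : (0 : ℝ) ≤ w)]
  have hJ : ((w : ℝ) + 1) ≤ J := by exact_mod_cast hwJ
  have hl1 : log (10 ^ 8 / ρ) = log (10 ^ 8) + -log ρ := by
    rw [log_div (by positivity) hρ.ne']
    ring
  have hC : (1 : ℝ) ≤ log (10 ^ 8) := by
    rw [le_log_iff_exp_le (by norm_num)]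
    have := exp_one_lt_d9
    linarith
  have hW : log ((w : ℝ) + 1) ≤ J := (log_le_sub_one_of_pos (by linarith)).trans (by linarith)
  have hE : 0 ≤ -log ρ := by
    have := log_nonpos hρ.le hρ1
    linarith
  have h57 : log 7200 ≤ log (10 ^ 8) := log_le_log (by norm_num) (by norm_num)
  have hy : (10 : ℝ) ^ 8 * (J + log (10 ^ 8 / ρ)) ≤ m * ρ := (div_le_iff₀ hρ).mp h
  rw [hl1] at hy
  have hy8 : (10 : ℝ) ^ 8 ≤ m * ρ := by
    refine le_trans ?_ hy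
    nlinarith
  have hm0 : (0 : ℝ) < m := by
    by_contra hm
    have : (m : ℝ) ≤ 0 := not_lt.mp hm
    nlinarith
  have hy0 : 0 < m * ρ := by positivity
  have h100 : log (m * ρ) ≤ m * ρ / 100 + 4 := by
    have h1 : log (m * ρ / 100) ≤ m * ρ / 100 - 1 := log_le_sub_one_of_pos (by positivity)
    have h2 : log (m * ρ / 100) = log (m * ρ) - log 100 := log_div hy0.ne' (by norm_num)
    have h3 : log 100 ≤ 5 := by
      rw [log_le_iff_le_exp (by norm_num)]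
      have h4 : (2.7 : ℝ) ≤ exp 1 := by linarith [exp_one_gt_d9]
      calc (100 : ℝ) ≤ 2.7 ^ 5 := by norm_num
        _ ≤ exp 1 ^ 5 := pow_le_pow_left₀ (by norm_num) h4 5
        _ = exp 5 := by rw [← exp_nat_mul]; norm_num
    linarith
  have hexp : exp (m * ρ / 3) ≤ (1 + ρ / 2) ^ m := by
    have h1 : exp (ρ / 3) ≤ 1 + ρ / 2 := by
      have h2 := abs_exp_sub_one_sub_id_le (x := ρ / 3) (by rw [abs_of_pos (by positivity)]; linarith)
      have h3 := (abs_le.mp h2).2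
      nlinarith
    calc exp (m * ρ / 3) = exp (ρ / 3) ^ m := by
          rw [← exp_nat_mul]
          congr 1
          ring
      _ ≤ (1 + ρ / 2) ^ m := pow_le_pow_left₀ (exp_pos _).le h1 m
  refine le_trans ?_ hexp
  have hpos : (0 : ℝ) < 7200 * exp 1 * (w + 1) * (m : ℝ) ^ 2 * 16 ^ J := by positivity
  rw [← log_le_iff_le_exp hpos]
  have hlog : log (7200 * exp 1 * (w + 1) * (m : ℝ) ^ 2 * 16 ^ J) =
      log 7200 + 1 + log (w + 1) + 2 * log m + J * log 16 := by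
    rw [log_mul (by positivity) (by positivity), log_mul (by positivity) (by positivity),
      log_mul (by positivity) (by positivity), log_mul (by norm_num) (by positivity), log_exp, log_pow, log_pow]
    norm_num
  have hlm : log m = log (m * ρ) + -log ρ := by
    rw [log_mul hm0.ne' hρ.ne']
    ring
  have h16 : log 16 ≤ 3 := by
    rw [log_le_iff_le_exp (by norm_num)]
    have h4 : (2.7 : ℝ) ≤ exp 1 := by linarith [exp_one_gt_d9]
    calc (16 : ℝ) ≤ 2.7 ^ 3 := by norm_num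
      _ ≤ exp 1 ^ 3 := pow_le_pow_left₀ (by norm_num) h4 3
      _ = exp 3 := by rw [← exp_nat_mul]; norm_num
  have hJ16 : (J : ℝ) * log 16 ≤ 3 * J := by nlinarith [(Nat.cast_nonneg J : (0 : ℝ) ≤ J)]
  rw [hlog, hlm]
  nlinarith

theorem term3 {m a w J : ℕ} {ρ : ℝ} (hρ : 0 < ρ) (ha : (10 : ℝ) ^ 8 ≤ a)
    (h : 7200 * exp 1 * (w + 1) * (m : ℝ) ^ 2 * 16 ^ J ≤ (1 + ρ / 2) ^ m) :
    a * (8 * a * (w + 1)).choose a * ((15 * m : ℝ) ^ a) ^ 2 * (((2 : ℝ) ^ a) ^ (2 * J)) ^ 2 *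
      (2 / (1 + ρ / 2) ^ (a * m)) ≤ 1 / 1000 := by
  have ha0 : (0 : ℝ) < a := lt_of_lt_of_le (by norm_num) ha
  have hw : (0 : ℝ) < w + 1 := by positivity
  have hb : (0 : ℝ) < (1 + ρ / 2) ^ m := by positivity
  have h1 : ((8 * a * (w + 1)).choose a : ℝ) ≤ (8 * (w + 1)) ^ a * exp 1 ^ a := by
    refine (Nat.choose_le_pow_div (α := ℝ) a (8 * a * (w + 1))).trans ?_
    have h2 : (a : ℝ) ^ a / a.factorial ≤ exp a := by
      have := sum_le_exp_of_nonneg ha0.le (a + 1)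
      refine le_trans ?_ this
      exact Finset.single_le_sum (f := fun i => (a : ℝ) ^ i / (i.factorial : ℝ)) (fun i _ => by positivity)
        (Finset.self_mem_range_succ a)
    rw [← exp_nat_mul, mul_one]
    push_cast
    calc (8 * (a : ℝ) * (w + 1)) ^ a / a.factorial = (8 * (w + 1)) ^ a * ((a : ℝ) ^ a / a.factorial) := by
          rw [show (8 * (a : ℝ) * (w + 1)) = (8 * (w + 1)) * a by ring, mul_pow]
          ring
      _ ≤ (8 * (w + 1)) ^ a * exp a := mul_le_mul_of_nonneg_left h2 (by positivity)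
  have h2 : a * (8 * a * (w + 1)).choose a * ((15 * m : ℝ) ^ a) ^ 2 * (((2 : ℝ) ^ a) ^ (2 * J)) ^ 2 *
      (2 / (1 + ρ / 2) ^ (a * m)) ≤ 2 * a * (1 / 4) ^ a := by
    calc a * (8 * a * (w + 1)).choose a * ((15 * m : ℝ) ^ a) ^ 2 * (((2 : ℝ) ^ a) ^ (2 * J)) ^ 2 *
          (2 / (1 + ρ / 2) ^ (a * m))
        ≤ a * ((8 * (w + 1)) ^ a * exp 1 ^ a) * ((15 * m : ℝ) ^ a) ^ 2 * (((2 : ℝ) ^ a) ^ (2 * J)) ^ 2 *
          (2 / (1 + ρ / 2) ^ (a * m)) := by gcongr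
      _ = 2 * a * ((1800 * exp 1 * (w + 1) * (m : ℝ) ^ 2 * 16 ^ J) / (1 + ρ / 2) ^ m) ^ a := by
          have e1 : (1800 * exp 1 * (w + 1) * (m : ℝ) ^ 2 * 16 ^ J) ^ a =
              (8 * (w + 1)) ^ a * exp 1 ^ a * ((15 * m : ℝ) ^ a) ^ 2 * (((2 : ℝ) ^ a) ^ (2 * J)) ^ 2 := by
            have e2 : (((2 : ℝ) ^ a) ^ (2 * J)) ^ 2 = (16 ^ J) ^ a := by
              rw [← pow_mul, ← pow_mul, ← pow_mul, show (16 : ℝ) = 2 ^ 4 by norm_num, ← pow_mul]
              congr 1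
              ring
            rw [e2, ← pow_mul (15 * (m : ℝ)), mul_comm a 2, pow_mul, ← mul_pow, ← mul_pow, ← mul_pow]
            congr 1
            ring
          rw [div_pow, e1, ← pow_mul (1 + ρ / 2), mul_comm m a]
          ring
      _ ≤ 2 * a * (1 / 4) ^ a := by
          apply mul_le_mul_of_nonneg_left _ (by positivity)
          apply pow_le_pow_left₀ (by positivity)
          rw [div_le_iff₀ hb]
          linarith
  refine h2.trans ?_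
  have h3 : (a : ℝ) + 1 ≤ 2 ^ a := by
    have := Nat.lt_two_pow_self (n := a)
    exact_mod_cast this
  have h4 : ((a : ℝ) + 1) * (a + 1) ≤ 4 ^ a := by
    calc ((a : ℝ) + 1) * (a + 1) ≤ 2 ^ a * 2 ^ a := by gcongr
      _ = 4 ^ a := by rw [← mul_pow]; norm_num
  rw [one_div, inv_pow, ← div_eq_mul_inv, div_le_iff₀ (by positivity)]
  nlinarith

theorem term4 {k m a w J : ℕ} (ha : (10 : ℝ) ^ 8 ≤ a) (hwJ : w + 1 ≤ J) (hm : (10 : ℝ) ^ 8 * (J * 2 ^ w) ≤ m)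
    (h : (10 : ℝ) ^ 8 * (a * (a * (w + 1) * m)) ^ 2 ≤ k) :
    2 * (((2 : ℝ) ^ a * (w + 1)) ^ J * ((15 * m + 1) ^ (8 * a * (w + 1))) ^ (w + 1)) *
      (k : ℝ) ^ (-((8 * a * (w + 1) - (w + 1) * a : ℕ) * m : ℝ) / 2 ^ (w + 2)) ≤ 1 / 1000 := by
  have ha0 : (0 : ℝ) < a := lt_of_lt_of_le (by norm_num) ha
  have ha1 : (1 : ℝ) ≤ a := le_trans (by norm_num) ha
  have hW : (1 : ℝ) ≤ w + 1 := by linarith [(Nat.cast_nonneg w : (0 : ℝ) ≤ w)]
  have hJ : ((w : ℝ) + 1) ≤ J := by exact_mod_cast hwJ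
  have hJ1 : (1 : ℝ) ≤ J := hW.trans hJ
  have h2w : (1 : ℝ) ≤ 2 ^ w := one_le_pow₀ (by norm_num)
  have hm1 : (1 : ℝ) ≤ m := by
    refine le_trans ?_ hm
    nlinarith [mul_le_mul hJ1 h2w (by norm_num) (by linarith)]
  set L : ℝ := log (16 * m) with hL
  have hL1 : 1 ≤ L := by
    rw [hL, le_log_iff_exp_le (by positivity)]
    have := exp_one_lt_d9
    linarith
  have h15 : log (15 * m + 1) ≤ L := log_le_log (by positivity) (by linarith)
  have hk0 : (0 : ℝ) < k := lt_of_lt_of_le (by positivity) h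
  have hkL : 2 * L ≤ log k := by
    have h1 : (16 * (m : ℝ)) ^ 2 ≤ k := by
      refine le_trans ?_ h
      have h6 : (m : ℝ) ^ 2 ≤ (a * (a * (w + 1) * m)) ^ 2 := pow_le_pow_left₀ (by positivity) (le_prod ha1) 2
      nlinarith
    calc 2 * L = log ((16 * (m : ℝ)) ^ 2) := by rw [log_pow, hL]; norm_num
      _ ≤ log k := log_le_log (by positivity) h1
  have hnat : ((8 * a * (w + 1) - (w + 1) * a : ℕ) : ℝ) = 7 * a * (w + 1) := by
    have : 8 * a * (w + 1) - (w + 1) * a = 7 * a * (w + 1) := by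
      have : (w + 1) * a = a * (w + 1) := mul_comm _ _
      rw [this, mul_assoc, mul_assoc]
      omega
    rw [this]
    push_cast
    ring
  rw [hnat]
  have hkp := rpow_pos_of_pos hk0 (-(7 * a * (w + 1) * m : ℝ) / 2 ^ (w + 2))
  have hpos : (0 : ℝ) < 2 * (((2 : ℝ) ^ a * (w + 1)) ^ J * ((15 * m + 1) ^ (8 * a * (w + 1))) ^ (w + 1)) *
      (k : ℝ) ^ (-(7 * a * (w + 1) * m : ℝ) / 2 ^ (w + 2)) := by positivity
  have hlog : log (2 * (((2 : ℝ) ^ a * (w + 1)) ^ J * ((15 * m + 1) ^ (8 * a * (w + 1))) ^ (w + 1)) *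
      (k : ℝ) ^ (-(7 * a * (w + 1) * m : ℝ) / 2 ^ (w + 2))) ≤ -7 := by
    rw [log_mul (by positivity) hkp.ne', log_mul (by norm_num) (by positivity),
      log_mul (by positivity) (by positivity), log_pow, log_pow, log_mul (by positivity) (by positivity), log_pow,
      log_pow, log_rpow hk0]
    have hlog2 : log 2 ≤ 1 := by linarith [log_two_lt_d9]
    have hlogw : log ((w : ℝ) + 1) ≤ w + 1 := (log_le_sub_one_of_pos (by linarith)).trans (by linarith)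
    -- the last summand
    have h5 : (10 : ℝ) ^ 8 * (a * (w + 1) * J) * L ≤ 7 * a * (w + 1) * m / 2 ^ (w + 2) * log k := by
      have h6 : (10 : ℝ) ^ 8 * (a * (w + 1) * J) * 7 / 4 ≤ 7 * a * (w + 1) * m / 2 ^ (w + 2) := by
        rw [le_div_iff₀ (by positivity), pow_add]
        have h7 : (0 : ℝ) ≤ a * (w + 1) := by positivity
        nlinarith [mul_le_mul_of_nonneg_left hm h7]
      have h8 : (0 : ℝ) ≤ a * (w + 1) * J := by positivity
      calc (10 : ℝ) ^ 8 * (a * (w + 1) * J) * L ≤ ((10 : ℝ) ^ 8 * (a * (w + 1) * J) * 7 / 4) * (2 * L) := by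
            nlinarith [mul_nonneg h8 (by linarith : 0 ≤ L)]
        _ ≤ 7 * a * (w + 1) * m / 2 ^ (w + 2) * log k :=
            mul_le_mul h6 hkL (by linarith) (by positivity)
    have hQ : (1 : ℝ) ≤ a * (w + 1) := by nlinarith
    have h9 : (J : ℝ) * (a * log 2 + log (w + 1)) ≤ 2 * (a * (w + 1) * J * L) := by
      have h10 : (a : ℝ) * log 2 ≤ a * (w + 1) := by
        have : log 2 ≤ (w : ℝ) + 1 := by linarith
        nlinarith
      have h11 : (w : ℝ) + 1 ≤ a * (w + 1) := by nlinarith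
      have h12 : (a : ℝ) * log 2 + log (w + 1) ≤ 2 * (a * (w + 1)) := by linarith
      have h13 : (J : ℝ) * (a * log 2 + log (w + 1)) ≤ J * (2 * (a * (w + 1))) :=
        mul_le_mul_of_nonneg_left h12 (by linarith)
      have h14 : (J : ℝ) * (2 * (a * (w + 1))) ≤ J * (2 * (a * (w + 1))) * L := by
        apply le_mul_of_one_le_right (by positivity) hL1
      linarith
    have h13 : ((w + 1 : ℕ) : ℝ) * ((8 * a * (w + 1) : ℕ) * log (15 * m + 1)) ≤ 8 * (a * (w + 1) * J * L) := by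
      push_cast
      have h10 : (0 : ℝ) ≤ (w + 1) * (8 * a * (w + 1)) := by positivity
      have h11 := mul_le_mul_of_nonneg_left h15 h10
      have h12 : ((w : ℝ) + 1) * (8 * a * (w + 1)) * L ≤ J * (8 * a * (w + 1)) * L := by gcongr
      linarith
    have h14 : (10 : ℝ) ^ 8 ≤ a * (w + 1) * J * L := by
      have h15 : (1 : ℝ) ≤ (w + 1) * J := by nlinarith
      have h16 : (1 : ℝ) ≤ (w + 1) * J * L := by nlinarith
      nlinarith
    have h16 : -(7 * a * (w + 1) * m : ℝ) / 2 ^ (w + 2) * log k =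
        -(7 * a * (w + 1) * m / 2 ^ (w + 2) * log k) := by ring
    rw [h16]
    have h17 : (10 : ℝ) ^ 8 * (a * (w + 1) * J * L) ≤ 7 * a * (w + 1) * m / 2 ^ (w + 2) * log k := by
      refine le_trans (le_of_eq ?_) h5
      ring
    generalize (a : ℝ) * (w + 1) * J * L = Z at h9 h13 h14 h17
    generalize (J : ℝ) * (a * log 2 + log (w + 1)) = Z0 at h9 ⊢
    generalize ((w + 1 : ℕ) : ℝ) * ((8 * a * (w + 1) : ℕ) * log (15 * m + 1)) = Z1 at h13 ⊢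
    generalize 7 * (a : ℝ) * (w + 1) * m / 2 ^ (w + 2) * log k = Z2 at h17 ⊢
    linarith
  calc 2 * (((2 : ℝ) ^ a * (w + 1)) ^ J * ((15 * m + 1) ^ (8 * a * (w + 1))) ^ (w + 1)) *
      (k : ℝ) ^ (-(7 * a * (w + 1) * m : ℝ) / 2 ^ (w + 2)) ≤ exp (-7) :=
        (log_le_iff_le_exp hpos).mp hlog
    _ ≤ 1 / 1000 := by
        rw [exp_neg, inv_eq_one_div]
        apply one_div_le_one_div_of_le (by norm_num)
        have h4 : (2.7 : ℝ) ≤ exp 1 := by linarith [exp_one_gt_d9]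
        calc (1000 : ℝ) ≤ 2.7 ^ 7 := by norm_num
          _ ≤ exp 1 ^ 7 := pow_le_pow_left₀ (by norm_num) h4 7
          _ = exp 7 := by rw [← exp_nat_mul]; norm_num

/-- Q1: the four terms of `Pool.Agent.Helper6.PQ.err` with `n = 8 a (w + 1)`, `d = 15`, `R = a`, `S = 2 ^ a`,
`|G| = 2`. -/
theorem numbers : ∃ C : ℝ, 1 ≤ C ∧ ∀ (k m a w J : ℕ) (ρ : ℝ), 0 < ρ → ρ ≤ 1 → w + 1 ≤ J → C * (J * 2 ^ w) ≤ m →
    C * (J + log (C / ρ)) / ρ ≤ m → C ≤ a → C * (a * (a * (w + 1) * m)) ^ 2 ≤ k →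
      ((a + 1 : ℝ) * ((8 * a * (w + 1) : ℕ) * m)) ^ 2 / k + 2 * 2 ^ (w + 1) / √k +
        a * (8 * a * (w + 1)).choose a * ((15 * m : ℝ) ^ a) ^ 2 * (((2 : ℝ) ^ a) ^ (2 * J)) ^ 2 *
          (2 / (1 + ρ / 2) ^ (a * m)) +
        2 * (((2 : ℝ) ^ a * (w + 1)) ^ J * ((15 * m + 1) ^ (8 * a * (w + 1))) ^ (w + 1)) *
          (k : ℝ) ^ (-((8 * a * (w + 1) - (w + 1) * a : ℕ) * m : ℝ) / 2 ^ (w + 2)) ≤ 1 / 100 := by
  refine ⟨10 ^ 8, by norm_num, fun k m a w J ρ hρ hρ1 hwJ h1 h2 h3 h4 => ?_⟩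
  have hJ1 : (1 : ℝ) ≤ J := by
    have : 1 ≤ J := by omega
    exact_mod_cast this
  have ha1 : (1 : ℝ) ≤ a := le_trans (by norm_num) h3
  have t1 := term1 ha1 h4
  have t2 := term2 ha1 hJ1 h1 h4
  have t3 := term3 hρ h3 (key hρ hρ1 hwJ h2)
  have t4 := term4 h3 hwJ h1 h4
  linarith

end Pool.Agent.Helper70.PQ
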