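import Mathlib

/-!
# The parameters
-/

set_option autoImplicit false

namespace Pool.Agent.Helper70.PQ

open Real Filter

/-- Powers are smaller than exponential functions. -/
theorem eventually_pow_le (A s : ℝ) (hs : 0 < s) : ∀ᶠ x : ℝ in atTop, A * x ^ 5 ≤ exp (s * x) := by
  have h := tendsto_exp_mul_div_rpow_atTop 5 s hs
  filter_upwards [h.eventually_ge_atTop A, eventually_gt_atTop 0] with x hx hx0
  have h1 : x ^ (5 : ℝ) = x ^ 5 := by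
    rw [← rpow_natCast]
    norm_num
  rw [h1] at hx
  rwa [le_div_iff₀ (by positivity)] at hx

/-- A lower bound for a power. -/
theorem exp_le_pow {w r : ℕ} (hw : 1 ≤ w) : exp (-(2 * r / (w + 1 : ℝ))) ≤ (1 - 1 / (w + 1 : ℝ)) ^ r := by
  have hw1 : (1 : ℝ) ≤ w := by exact_mod_cast hw
  have h0 : (0 : ℝ) < w + 1 := by linarith
  have h1 : exp (-(2 / (w + 1 : ℝ))) ≤ 1 - 1 / (w + 1 : ℝ) := by
    obtain ⟨t, ht⟩ : ∃ t : ℝ, t = 1 / (w + 1 : ℝ) := ⟨_, rfl⟩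
    have ht0 : 0 < t := by rw [ht]; positivity
    have ht1 : t ≤ 1 / 2 := by
      rw [ht]
      exact one_div_le_one_div_of_le (by norm_num) (by linarith)
    have h2 : 2 / (w + 1 : ℝ) = 2 * t := by
      rw [ht]
      ring
    rw [h2, exp_neg, ← ht]
    have h3 : (1 : ℝ) ≤ (1 - t) * exp (2 * t) := by
      have h4 : 1 + 2 * t ≤ exp (2 * t) := by linarith [add_one_le_exp (2 * t)]
      have h5 : (1 - t) * (1 + 2 * t) ≤ (1 - t) * exp (2 * t) := mul_le_mul_of_nonneg_left h4 (by linarith)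
      nlinarith
    rw [inv_le_iff_one_le_mul₀ (exp_pos _)]
    exact h3
  calc exp (-(2 * r / (w + 1 : ℝ))) = exp (-(2 / (w + 1 : ℝ))) ^ r := by
        rw [← exp_nat_mul]
        congr 1
        ring
    _ ≤ (1 - 1 / (w + 1 : ℝ)) ^ r := pow_le_pow_left₀ (exp_pos _).le h1 r

/-- The inequalities for the cells which are read at most `r` times. -/
theorem part_r {ε x y A K J W β r ρ : ℝ} (hx1 : 1 ≤ x) (hA : 40 ≤ A) (hyA : A * x ^ 5 ≤ y) (hy0 : 0 < y)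
    (hyε : 1 ≤ ε * y) (hε : 0 < ε) (hr0 : 0 ≤ r) (hr : r ≤ x ^ 2) (hW0 : 0 ≤ W) (hW : W ≤ 2 * x)
    (hJ : y ^ 3 ≤ J) (hK : y ^ 4 ≤ K) (hβ : y⁻¹ ≤ β) (hρ : ρ = ε / 4 / y) :
    16 * r ^ 2 * W < J * β ^ 2 ∧ 4 * ρ ≤ ε * β ∧ 8 * r * W ≤ ε * K * β ^ 2 ∧ 4 ≤ ε * β * K := by
  have hx0 : 0 ≤ x := by linarith
  have hx5 : 1 ≤ x ^ 5 := one_le_pow₀ hx1
  have h40 : 40 * x ^ 5 ≤ y := le_trans (mul_le_mul_of_nonneg_right hA (by linarith)) hyA
  have hy40 : 40 ≤ y := by linarith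
  have hβ0 : 0 < β := lt_of_lt_of_le (by positivity) hβ
  have hβ1 : 1 ≤ β * y := (inv_le_iff_one_le_mul₀ hy0).mp hβ
  have hβ2 : 1 ≤ β ^ 2 * y ^ 2 := by
    rw [← mul_pow]
    exact one_le_pow₀ hβ1
  refine ⟨?_, ?_, ?_, ?_⟩
  · calc 16 * r ^ 2 * W ≤ 16 * (x ^ 2) ^ 2 * (2 * x) := by gcongr
      _ = 32 * x ^ 5 := by ring
      _ < 40 * x ^ 5 := by linarith
      _ ≤ y := h40
      _ ≤ y * (β ^ 2 * y ^ 2) := le_mul_of_one_le_right hy0.le hβ2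
      _ = y ^ 3 * β ^ 2 := by ring
      _ ≤ J * β ^ 2 := mul_le_mul_of_nonneg_right hJ (by positivity)
  · calc 4 * ρ = ε * y⁻¹ := by rw [hρ]; ring
      _ ≤ ε * β := mul_le_mul_of_nonneg_left hβ hε.le
  · calc 8 * r * W ≤ 8 * x ^ 2 * (2 * x) := by gcongr
      _ = 16 * x ^ 3 := by ring
      _ ≤ 40 * x ^ 5 := by
          have h1 := pow_le_pow_right₀ hx1 (show 3 ≤ 5 by norm_num)
          linarith
      _ ≤ y := h40
      _ ≤ (ε * y) * y := le_mul_of_one_le_left hy0.le hyε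
      _ ≤ (ε * y) * y * (β ^ 2 * y ^ 2) := le_mul_of_one_le_right (by positivity) hβ2
      _ = ε * y ^ 4 * β ^ 2 := by ring
      _ ≤ ε * K * β ^ 2 := by gcongr
  · have hy2 : 1 ≤ y ^ 2 := one_le_pow₀ (by linarith)
    calc (4 : ℝ) ≤ y := by linarith
      _ ≤ (ε * y) * y := le_mul_of_one_le_left hy0.le hyε
      _ ≤ (ε * y) * y * (β * y) := le_mul_of_one_le_right (by positivity) hβ1
      _ ≤ (ε * y) * y * (β * y) * y := le_mul_of_one_le_right (by positivity) (by linarith)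
      _ = ε * β * y ^ 4 := by ring
      _ ≤ ε * β * K := by gcongr

/-- The inequalities for the number of letters and the number of nodes. -/
theorem part_m {C ε x y z K J p a W m l ρ : ℝ} (hC : 1 ≤ C) (hε : 0 < ε) (hy40 : 40 ≤ y) (hyC : 24 * C ≤ y)
    (hyCε : 24 * C / ε ≤ y) (hW0 : 0 ≤ W) (hW : W ≤ 2 * x) (hxy : 2 * x ≤ y) (hp0 : 0 ≤ p) (hp : p ≤ y ^ 2) (_hJ0 : 0 ≤ J)
    (hJ : J ≤ 2 * y ^ 3) (hl : l ≤ y) (hm0 : 0 ≤ m) (hm1 : m ≤ y ^ 8) (hm2 : y ^ 8 / 2 ≤ m) (hz : 0 < z)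
    (ha0 : 0 ≤ a) (ha : a ≤ 2 * z) (hK : z ^ 4 * y ^ 32 = K) (hρ : ρ = ε / 4 / y) :
    C * (J * p) ≤ m ∧ C * (J + l) / ρ ≤ m ∧ C * (a * (a * W * m)) ^ 2 ≤ K := by
  have hy0 : 0 < y := by linarith
  have hC0 : 0 ≤ C := by linarith
  have hpl : ∀ i j : ℕ, i ≤ j → y ^ i ≤ y ^ j := fun i j hij => pow_le_pow_right₀ (by linarith) hij
  refine ⟨?_, ?_, ?_⟩
  · calc C * (J * p) ≤ C * ((2 * y ^ 3) * y ^ 2) := by gcongr
      _ = (2 * C) * y ^ 5 := by ring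
      _ ≤ (y / 2) * y ^ 5 := mul_le_mul_of_nonneg_right (by linarith) (by positivity)
      _ = y ^ 6 / 2 := by ring
      _ ≤ y ^ 8 / 2 := by linarith [hpl 6 8 (by norm_num)]
      _ ≤ m := hm2
  · have hl3 : l ≤ y ^ 3 := by
      have h5 := hpl 1 3 (by norm_num)
      rw [pow_one] at h5
      linarith
    have h6 : C * (J + l) / ρ = C * (J + l) * ((4 / ε) * y) := by
      rw [hρ]
      field_simp
    rw [h6]
    calc C * (J + l) * ((4 / ε) * y) ≤ C * (2 * y ^ 3 + y ^ 3) * ((4 / ε) * y) := by gcongr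
      _ = (24 * C / ε) * (y ^ 4 / 2) := by ring
      _ ≤ y * (y ^ 4 / 2) := mul_le_mul_of_nonneg_right hyCε (by positivity)
      _ = y ^ 5 / 2 := by ring
      _ ≤ y ^ 8 / 2 := by linarith [hpl 5 8 (by norm_num)]
      _ ≤ m := hm2
  · have h1 : W ≤ y := by linarith
    have h2 : a * (a * W * m) ≤ (2 * z) * ((2 * z) * y * y ^ 8) := by gcongr
    have h3 : (0 : ℝ) ≤ a * (a * W * m) := by positivity
    have hz4 : 0 < z ^ 4 := by positivity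
    calc C * (a * (a * W * m)) ^ 2 ≤ C * ((2 * z) * ((2 * z) * y * y ^ 8)) ^ 2 :=
          mul_le_mul_of_nonneg_left (pow_le_pow_left₀ h3 h2 2) hC0
      _ = (16 * C) * (z ^ 4 * y ^ 18) := by ring
      _ ≤ y * (z ^ 4 * y ^ 18) := mul_le_mul_of_nonneg_right (by linarith) (by positivity)
      _ = z ^ 4 * y ^ 19 := by ring
      _ ≤ z ^ 4 * y ^ 32 := mul_le_mul_of_nonneg_left (hpl 19 32 (by norm_num)) hz4.le
      _ = K := hK

/-- Q2: the parameters for `r ≤ c log ^ 2 k`. -/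
theorem params (C : ℝ) (hC : 1 ≤ C) (ε δ : ℝ) (hε : 0 < ε) (hε1 : ε ≤ 1) (hδ : 0 < δ) :
    ∃ (c : ℝ) (k₀ : ℕ), 0 < c ∧ ∀ k : ℕ, k₀ ≤ k → ∃ (w J m a : ℕ) (ρ : ℝ), 1 ≤ w ∧ w + 1 ≤ J ∧ 0 < ρ ∧ ρ ≤ 1 ∧
      C * (J * 2 ^ w) ≤ m ∧ C * (J + log (C / ρ)) / ρ ≤ m ∧ C ≤ a ∧ C * (a * (a * (w + 1) * m)) ^ 2 ≤ k ∧
      (m : ℝ) ≤ (k : ℝ) ^ δ ∧ (k : ℝ) ^ (1 / 4 - δ) ≤ a ∧
      ∀ r : ℕ, (r : ℝ) ≤ c * log k ^ 2 →
        16 * (r : ℝ) ^ 2 * (w + 1) < J * ((1 - 1 / (w + 1 : ℝ)) ^ r) ^ 2 ∧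
        4 * ρ ≤ ε * (1 - 1 / (w + 1 : ℝ)) ^ r ∧
        8 * (r : ℝ) * (w + 1) ≤ ε * k * ((1 - 1 / (w + 1 : ℝ)) ^ r) ^ 2 ∧
        4 ≤ ε * (1 - 1 / (w + 1 : ℝ)) ^ r * k := by
  obtain ⟨η, hη⟩ : ∃ η : ℝ, η = min δ (1 / 8) / 8 := ⟨_, rfl⟩
  have hη0 : 0 < η := by
    have : 0 < min δ (1 / 8) := lt_min hδ (by norm_num)
    rw [hη]
    positivity
  have hη1 : η ≤ 1 / 64 := by
    have := min_le_right δ (1 / 8)
    rw [hη]
    linarith
  have hηδ : 8 * η ≤ δ := by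
    have := min_le_left δ (1 / 8)
    rw [hη]
    linarith
  clear hη
  obtain ⟨A, hA⟩ : ∃ A : ℝ, A = 40 + 24 * C / ε + |log (4 * C / ε)| := ⟨_, rfl⟩
  have hCε : 24 * C ≤ 24 * C / ε := le_div_self (by linarith) hε hε1
  have hε2 : 1 / ε ≤ 24 * C / ε := div_le_div_of_nonneg_right (by linarith) hε.le
  have hev : ∀ᶠ x : ℝ in atTop, A * x ^ 5 ≤ exp (η * x) ∧ 1 / η ≤ x ∧ 1 ≤ x :=
    (eventually_pow_le A η hη0).and ((eventually_ge_atTop (1 / η)).and (eventually_ge_atTop 1))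
  have hev2 := (tendsto_log_atTop.comp (tendsto_natCast_atTop_atTop (R := ℝ))).eventually hev
  obtain ⟨k₀, hk₀⟩ := eventually_atTop.1 hev2
  refine ⟨η ^ 2, max k₀ 1, by positivity, fun k hk => ?_⟩
  obtain ⟨hx5, hxη, hx1⟩ := hk₀ k (le_trans (le_max_left _ _) hk)
  have hk1 : 1 ≤ k := le_trans (le_max_right _ _) hk
  clear hk₀ hev hev2 hk
  have hk0 : (0 : ℝ) < k := by exact_mod_cast hk1
  simp only [Function.comp_apply] at hx5 hxη hx1
  obtain ⟨x, hx⟩ : ∃ x : ℝ, x = log k := ⟨_, rfl⟩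
  rw [← hx] at hx5 hxη hx1
  have hkx : (k : ℝ) = exp x := by rw [hx, exp_log hk0]
  obtain ⟨y, hy⟩ : ∃ y : ℝ, y = exp (η * x) := ⟨_, rfl⟩
  rw [← hy] at hx5
  have hx0 : 0 ≤ x := by linarith
  have hx5' : 1 ≤ x ^ 5 := one_le_pow₀ hx1
  have hxx5 : x ≤ x ^ 5 := by
    calc x = x ^ 1 := (pow_one x).symm
      _ ≤ x ^ 5 := pow_le_pow_right₀ hx1 (by norm_num)
  have habs := abs_nonneg (log (4 * C / ε))
  have hdiv : 0 ≤ 24 * C / ε := by positivity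
  have hA40 : 40 ≤ A := by rw [hA]; linarith
  have hyA' : A ≤ y := (le_mul_of_one_le_right (by linarith) hx5').trans hx5
  have hy40 : 40 ≤ y := hA40.trans hyA'
  have hyCε : 24 * C / ε ≤ y := by
    refine le_trans ?_ hyA'
    rw [hA]
    linarith
  have hyC : 24 * C ≤ y := hCε.trans hyCε
  have hyε' : 1 ≤ ε * y := by
    have hyε : 1 / ε ≤ y := hε2.trans hyCε
    rw [div_le_iff₀ hε] at hyε
    linarith
  have hylog : log (4 * C / ε) + x ≤ y := by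
    have h1 := le_abs_self (log (4 * C / ε))
    have h2 : |log (4 * C / ε)| * 1 ≤ |log (4 * C / ε)| * x ^ 5 := mul_le_mul_of_nonneg_left hx5' habs
    have h3 : 0 ≤ 24 * C / ε * x ^ 5 := by positivity
    have h4 : A * x ^ 5 = 40 * x ^ 5 + 24 * C / ε * x ^ 5 + |log (4 * C / ε)| * x ^ 5 := by
      rw [hA]
      ring
    linarith
  have hxy : 2 * x ≤ y := by
    have h1 : 40 * x ^ 5 ≤ A * x ^ 5 := mul_le_mul_of_nonneg_right hA40 (by linarith)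
    linarith
  have hy0 : 0 < y := by linarith
  have hypow : ∀ n : ℕ, y ^ n = exp (n * η * x) := by
    intro n
    rw [hy, ← exp_nat_mul]
    congr 1
    ring
  have hηx : 1 ≤ η * x := by
    rw [div_le_iff₀ hη0] at hxη
    linarith
  have hηx' : η * x ≤ 1 / 64 * x := mul_le_mul_of_nonneg_right hη1 hx0
  -- the number of windows
  obtain ⟨w, hw⟩ : ∃ w : ℕ, w = ⌊2 * (η * x)⌋₊ := ⟨_, rfl⟩
  have hw1 : 1 ≤ w := by
    rw [hw]
    apply Nat.le_floor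
    push_cast
    linarith
  have hw2 : (w : ℝ) ≤ 2 * (η * x) := by
    rw [hw]
    exact Nat.floor_le (by linarith)
  have hw3 : 2 * (η * x) < w + 1 := by
    rw [hw]
    exact Nat.lt_floor_add_one _
  have hw0 : (0 : ℝ) ≤ w := Nat.cast_nonneg _
  have hwx : (w : ℝ) + 1 ≤ 2 * x := by linarith
  have h2w : (2 : ℝ) ^ w ≤ y ^ 2 := by
    calc (2 : ℝ) ^ w = exp (w * log 2) := by
          rw [exp_nat_mul, exp_log (by norm_num)]
      _ ≤ exp ((2 : ℕ) * η * x) := by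
          apply exp_le_exp.2
          have h1 : (w : ℝ) * log 2 ≤ w := mul_le_of_le_one_right hw0 (by linarith [log_two_lt_d9])
          push_cast
          linarith
      _ = y ^ 2 := (hypow 2).symm
  -- the number of parts
  obtain ⟨J, hJ⟩ : ∃ J : ℕ, J = ⌈y ^ 3⌉₊ := ⟨_, rfl⟩
  have hJ1 : y ^ 3 ≤ J := by
    rw [hJ]
    exact Nat.le_ceil _
  have hy3 : 1 ≤ y ^ 3 := one_le_pow₀ (by linarith)
  have hJ2 : (J : ℝ) ≤ 2 * y ^ 3 := by
    have := Nat.ceil_lt_add_one (show (0 : ℝ) ≤ y ^ 3 by positivity)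
    rw [hJ]
    linarith
  -- the number of letters
  obtain ⟨m, hm⟩ : ∃ m : ℕ, m = ⌊y ^ 8⌋₊ := ⟨_, rfl⟩
  have hm1 : (m : ℝ) ≤ y ^ 8 := by
    rw [hm]
    exact Nat.floor_le (by positivity)
  have hpl : ∀ i j : ℕ, i ≤ j → y ^ i ≤ y ^ j := fun i j hij => pow_le_pow_right₀ (by linarith) hij
  have hy8 : 2 ≤ y ^ 8 := by
    have h1 := hpl 1 8 (by norm_num)
    rw [pow_one] at h1
    linarith
  have hm2 : y ^ 8 / 2 ≤ m := by
    have := Nat.lt_floor_add_one (y ^ 8)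
    rw [hm]
    linarith
  -- the number of nodes
  obtain ⟨z, hz⟩ : ∃ z : ℝ, z = exp ((1 / 4 - 8 * η) * x) := ⟨_, rfl⟩
  have hzy : y ≤ z := by
    rw [hy, hz]
    apply exp_le_exp.2
    linarith
  have hz0 : 0 < z := by linarith
  obtain ⟨a, ha⟩ : ∃ a : ℕ, a = ⌈z⌉₊ := ⟨_, rfl⟩
  have ha1 : z ≤ a := by
    rw [ha]
    exact Nat.le_ceil _
  have ha2 : (a : ℝ) ≤ 2 * z := by
    have := Nat.ceil_lt_add_one hz0.le
    rw [ha]
    linarith
  have hz4 : z ^ 4 * y ^ 32 = k := by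
    rw [hypow 32, hz, ← exp_nat_mul, ← exp_add, hkx]
    congr 1
    push_cast
    ring
  have hky : y ^ 4 ≤ k := by
    rw [hypow 4, hkx]
    apply exp_le_exp.2
    push_cast
    linarith
  have hlog : log (C / (ε / 4 / y)) ≤ y := by
    have h2 : C / (ε / 4 / y) = (4 * C / ε) * exp (η * x) := by
      rw [← hy]
      field_simp
    rw [h2, log_mul (by positivity) (exp_pos _).ne', log_exp]
    linarith
  clear hw hJ hm ha
  obtain ⟨p1, p2, p3⟩ := part_m (W := (w : ℝ) + 1) (l := log (C / (ε / 4 / y))) hC hε hy40 hyC hyCε (by linarith) hwx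
    hxy (by positivity) h2w (Nat.cast_nonneg J) hJ2 hlog (Nat.cast_nonneg m) hm1 hm2 hz0 (Nat.cast_nonneg a) ha2 hz4 rfl
  refine ⟨w, J, m, a, ε / 4 / y, hw1, ?_, by positivity, ?_, p1, p2, ?_, p3, ?_, ?_, ?_⟩
  · -- w + 1 ≤ J
    have h1 : ((w + 1 : ℕ) : ℝ) ≤ J := by
      push_cast
      have h3 := hpl 1 3 (by norm_num)
      rw [pow_one] at h3
      linarith
    exact_mod_cast h1
  · -- ρ ≤ 1
    rw [div_le_one hy0]
    linarith
  · -- C ≤ a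
    linarith
  · -- m ≤ k ^ δ
    refine hm1.trans ?_
    rw [hypow 8, rpow_def_of_pos hk0, ← hx]
    apply exp_le_exp.2
    push_cast
    calc 8 * η * x ≤ δ * x := mul_le_mul_of_nonneg_right hηδ hx0
      _ = x * δ := mul_comm _ _
  · -- k ^ (1 / 4 - δ) ≤ a
    refine le_trans ?_ ha1
    rw [rpow_def_of_pos hk0, ← hx, hz]
    apply exp_le_exp.2
    have h1 : 8 * η * x ≤ δ * x := mul_le_mul_of_nonneg_right hηδ hx0
    linarith
  · intro r hr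
    rw [← hx] at hr
    have hβy : y⁻¹ ≤ (1 - 1 / (w + 1 : ℝ)) ^ r := by
      refine le_trans ?_ (exp_le_pow hw1)
      rw [hy, ← exp_neg]
      apply exp_le_exp.2
      apply neg_le_neg
      rw [div_le_iff₀ (by linarith)]
      have h1 : (η * x) * (2 * (η * x)) ≤ (η * x) * (w + 1) := mul_le_mul_of_nonneg_left hw3.le (by linarith)
      have h2 : 2 * (η ^ 2 * x ^ 2) = (η * x) * (2 * (η * x)) := by ring
      linarith
    have hrx : (r : ℝ) ≤ x ^ 2 := by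
      have h1 : η ^ 2 ≤ 1 := pow_le_one₀ hη0.le (by linarith)
      exact hr.trans (mul_le_of_le_one_left (sq_nonneg x) h1)
    exact part_r hx1 hA40 hx5 hy0 hyε' hε (Nat.cast_nonneg r) hrx (by linarith) hwx hJ1 hky hβy rfl

end Pool.Agent.Helper70.PQ
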